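import Pool.Agent.R229.MT.Stm
import Pool.Agent.R364.MS.G

/-! MT-E: exhaustion for Maharam types. -/

set_option autoImplicit false

noncomputable section

namespace Pool.Agent.R229.MT

open MeasureTheory Filter Topology Set Pool.Agent.R229.MS
open scoped InnerProductSpace ENNReal NNReal Cardinal

universe u

theorem mk_iUnion_nat_le {X : Type u} (F : ℕ → Set (Set X)) (κ : Cardinal.{u}) (hκ : ℵ₀ ≤ κ)
    (hF : ∀ n, #(F n) ≤ κ) : #(⋃ n, F n : Set (Set X)) ≤ κ := by
  have h : (⋃ n, F n) = ⋃ n : ULift.{u} ℕ, F n.down := by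
    ext x
    simp only [mem_iUnion]
    exact ⟨fun ⟨n, hn⟩ => ⟨⟨n⟩, hn⟩, fun ⟨n, hn⟩ => ⟨n.down, hn⟩⟩
  rw [h]
  refine (Cardinal.mk_iUnion_le _).trans ?_
  refine (mul_le_mul' (b := κ) (d := κ) ?_ ?_).trans ?_
  · simpa using hκ
  · exact ciSup_le' fun n => hF n.down
  · exact (Cardinal.mul_eq_self hκ).le

theorem genBy_iUnion {X : Type u} [m0 : MeasurableSpace X] (μ : Measure X) (D : Set X)
    (hD : MeasurableSet D) (κ : Cardinal.{u}) (hκ : ℵ₀ ≤ κ) (b : ℕ → Set X)
    (hb : ∀ n, MeasurableSet (b n)) (hP : ∀ n, GenBy μ (D ∩ b n) κ) :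
    GenBy μ (D ∩ ⋃ n, b n) κ := by
  choose F hFm hFc hFg using hP
  refine ⟨(⋃ n, F n) ∪ range b, ?_, ?_, ?_⟩
  · rintro A (hA | ⟨n, rfl⟩)
    · obtain ⟨n, hn⟩ := mem_iUnion.1 hA
      exact hFm n A hn
    · exact hb n
  · refine (Cardinal.mk_union_le _ _).trans ?_
    refine Cardinal.add_le_of_le hκ (mk_iUnion_nat_le F κ hκ hFc) ?_
    have h1 := Cardinal.mk_range_le_lift (f := b)
    have h2 : #(range b) ≤ ℵ₀ := by
      have := (Set.countable_range b).le_aleph0
      exact this
    exact h2.trans hκ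
  · intro D' hD'
    choose E hEm hE using fun n => hFg n D' hD'
    refine ⟨⋃ n, E n ∩ disjointed b n, ?_, ?_⟩
    · refine MeasurableSet.iUnion fun n => MeasurableSet.inter ?_ ?_
      · exact MeasurableSpace.generateFrom_mono
          ((subset_iUnion F n).trans subset_union_left) _ (hEm n)
      · refine MeasurableSet.disjointed (fun i => ?_) n
        exact MeasurableSpace.measurableSet_generateFrom (Or.inr ⟨i, rfl⟩)
    · have hall : ∀ᵐ x ∂μ, ∀ n, x ∈ D ∩ b n → (x ∈ D' ↔ x ∈ E n) := by
        rw [ae_all_iff]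
        intro n
        have := hE n
        rw [Filter.eventuallyEq_set, ae_restrict_iff' (hD.inter (hb n))] at this
        exact this
      rw [Filter.eventuallyEq_set, ae_restrict_iff' (hD.inter (MeasurableSet.iUnion hb))]
      filter_upwards [hall] with x hx hxD
      have hxU : x ∈ ⋃ n, disjointed b n := by
        rw [iUnion_disjointed]
        exact hxD.2
      obtain ⟨n, hn⟩ := mem_iUnion.1 hxU
      have hnb : x ∈ b n := disjointed_subset b n hn
      constructor
      · intro hxD'
        exact mem_iUnion.2 ⟨n, (hx n ⟨hxD.1, hnb⟩).1 hxD', hn⟩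
      · intro hxE
        obtain ⟨k, hk1, hk2⟩ := mem_iUnion.1 hxE
        exact (hx k ⟨hxD.1, disjointed_subset b k hk2⟩).2 hk1

theorem stmtE : StmtE.{u} := by
  intro X m0 μ D hD hDf κ hκ hyp
  have : IsFiniteMeasure (μ.restrict D) := ⟨by
    rw [Measure.restrict_apply_univ]
    exact lt_top_iff_ne_top.2 hDf⟩
  obtain ⟨b, hb, hPb, hmax⟩ := Pool.Agent.R364.MS.exists_max (μ.restrict D)
    (fun b => GenBy μ (D ∩ b) κ)
    ⟨∅, by simp, by simp, fun D' _ => ⟨∅, by simp, by simp [Filter.EventuallyEq]⟩⟩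
    (fun b _ h => genBy_iUnion μ D hD κ hκ b (fun n => (h n).1) fun n => (h n).2)
  have hnull : μ (D \ b) = 0 := by
    by_contra hne
    obtain ⟨D2, hD2s, hD2m, hD20, hD2g⟩ := hyp (D \ b) sdiff_subset (hD.diff hb) hne
    have hDD2 : D ∩ D2 = D2 := inter_eq_right.2 (hD2s.trans sdiff_subset)
    have hPd : GenBy μ (D ∩ (b ∪ D2)) κ := by
      have h := genBy_iUnion μ D hD κ hκ (fun n => if n = 0 then b else D2)
        (fun n => by by_cases hn : n = 0 <;> simp [hn, hb, hD2m])
        (fun n => by
          by_cases hn : n = 0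
          · simpa [hn] using hPb
          · simpa [hn, hDD2] using hD2g)
      have hU : (⋃ n : ℕ, if n = 0 then b else D2) = b ∪ D2 := by
        ext x
        simp only [mem_iUnion, mem_union]
        constructor
        · rintro ⟨n, hn⟩
          by_cases h0 : n = 0
          · left; simpa [h0] using hn
          · right; simpa [h0] using hn
        · rintro (h | h)
          · exact ⟨0, by simpa using h⟩
          · exact ⟨1, by simpa using h⟩
      rw [hU] at h
      exact h
    have h1 := hmax (b ∪ D2) subset_union_left (hb.union hD2m) hPd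
    have hdisj : Disjoint b D2 := by
      rw [Set.disjoint_left]
      intro x hx hx2
      exact (hD2s hx2).2 hx
    rw [measureReal_union hdisj hD2m] at h1
    have h2 : 0 < (μ.restrict D).real D2 := by
      rw [measureReal_def, Measure.restrict_apply hD2m, inter_comm, hDD2]
      refine ENNReal.toReal_pos hD20 ?_
      exact ne_top_of_le_ne_top hDf (measure_mono (hD2s.trans sdiff_subset))
    linarith
  have hae : (D ∩ b : Set X) =ᵐ[μ] D := by
    have : (D \ (D ∩ b) : Set X) = D \ b := by
      ext x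
      simp
    refine (inter_subset_left.eventuallyLE).antisymm ?_
    rw [ae_le_set, this]
    exact hnull
  have hr : μ.restrict (D ∩ b) = μ.restrict D := Measure.restrict_congr_set hae
  obtain ⟨F, h1, h2, h3⟩ := hPb
  refine ⟨F, h1, h2, fun D' hD' => ?_⟩
  rw [hr] at h3
  exact h3 D' hD'

end Pool.Agent.R229.MT
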