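import Pool.Agent.R229.MT.Stm
import Pool.Agent.R229.MS.Final

/-! # Piece MT-POS: rank one operators of indicators give all compact operators -/

set_option autoImplicit false

noncomputable section

namespace Pool.Agent.R229.MT

open MeasureTheory Filter Topology Set Pool.Agent.R229.MS
open scoped InnerProductSpace ENNReal NNReal Cardinal

universe u

namespace Pos

variable {X : Type u} [MeasurableSpace X] {μ : Measure X}

theorem supp_of_ae {A : Set X} {ξ : L2 μ} (h : Supp ξ A) :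
    μ {x | (ξ : X → ℂ) x ≠ 0} ≤ μ A := by
  refine measure_mono_ae ?_
  filter_upwards [h] with x hx hne
  by_contra hA
  exact hne (hx hA)

theorem ex_of_expands {c : ℝ≥0} {a : L2 μ →L[ℂ] L2 μ} (h : MS.Expands c a) :
    R496.SE.Ex (c : ℝ≥0∞) a := by
  intro f
  have hm : MeasurableSet {x | (f : X → ℂ) x ≠ 0} :=
    (Lp.stronglyMeasurable f).measurable (measurableSet_singleton 0).compl
  obtain ⟨B, _, hB, h1⟩ := h _ hm
  refine (supp_of_ae (h1 f ?_)).trans hB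
  refine Filter.Eventually.of_forall ?_
  intro x hx
  by_contra hne
  exact hx hne

theorem cu_le (a : L2 μ →L[ℂ] L2 μ) (ha : a ∈ Cu μ) :
    a ∈ (R496.SE.Adm μ).topologicalClosure := by
  have h1 : a ∈ closure ((Bse μ : Set (L2 μ →L[ℂ] L2 μ))) := ha
  have h2 : (Bse μ : Set (L2 μ →L[ℂ] L2 μ)) ⊆
      ((R496.SE.Adm μ : Submodule ℂ (L2 μ →L[ℂ] L2 μ)) : Set (L2 μ →L[ℂ] L2 μ)) := by
    rintro b ⟨c, hb1, hb2⟩
    exact ⟨c, ex_of_expands hb1, ex_of_expands hb2⟩
  exact closure_mono h2 h1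

theorem inner_ne {θ : ℂ} {B C : Set X} {ξ : L2 μ} (hCB : C ⊆ B) (hm : MeasurableSet C)
    (hf : μ C ≠ ∞) (hC0 : μ C ≠ 0) (hpos : ∀ x ∈ B, 0 < (θ * (ξ : X → ℂ) x).re) :
    ⟪indicatorConstLp 2 hm hf (1 : ℂ), ξ⟫_ℂ ≠ 0 := by
  intro h0
  rw [L2.inner_indicatorConstLp_one] at h0
  have hint : IntegrableOn (ξ : X → ℂ) C μ := by
    have : IsFiniteMeasure (μ.restrict C) := ⟨by simpa using lt_top_iff_ne_top.mpr hf⟩
    exact ((Lp.memLp ξ).restrict C).integrable (by norm_num)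
  have h1 : ∫ x in C, (θ * (ξ : X → ℂ) x).re ∂μ = 0 := by
    have h2 : ∫ x in C, (θ * (ξ : X → ℂ) x) ∂μ = 0 := by
      rw [integral_const_mul, h0, mul_zero]
    have h3 := integral_re (hint.const_mul θ)
    simp only [RCLike.re_to_complex] at h3
    rw [h3, h2]
    rfl
  have h4 : 0 < ∫ x in C, (θ * (ξ : X → ℂ) x).re ∂μ := by
    have hint2 : IntegrableOn (fun x => (θ * (ξ : X → ℂ) x).re) C μ :=
      (hint.const_mul θ).re
    rw [setIntegral_pos_iff_support_of_nonneg_ae _ hint2]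
    · refine lt_of_lt_of_le (pos_iff_ne_zero.2 hC0) (measure_mono ?_)
      intro x hx
      exact ⟨(hpos x (hCB hx)).ne', hx⟩
    · rw [Filter.EventuallyLE, ae_restrict_iff' hm]
      exact Filter.Eventually.of_forall fun x hx => (hpos x (hCB hx)).le
  linarith

end Pos

open Pos in
theorem t_StmtPos : StmtPos.{u} := by
  intro X _ μ S hS hpos hr k hk
  rw [R496.SupportExpansion.cu_eq]
  refine R496.SE.compact_mem _ (R496.SE.Adm μ).isClosed_topologicalClosure ?_ k hk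
  obtain ⟨E, hE⟩ : ∃ E : Set (Lp ℂ 2 μ), E = {f | ∃ (C : Set X) (hC : C ∈ S),
    f = indicatorConstLp 2 (hS C hC).1 (hS C hC).2 (1 : ℂ)} := ⟨_, rfl⟩
  refine R496.SE.r1_mem_of_total _ (R496.SE.Adm μ).isClosed_topologicalClosure E ?_ ?_
  · apply R496.SE.total_of_orth
    intro f hf
    by_contra hne
    obtain ⟨θ, B, hB, hB0, hBf, hp⟩ := exists_good f hne
    obtain ⟨C, hCB, hC, hC0⟩ := hpos B hB hB0 hBf
    refine inner_ne hCB (hS C hC).1 (hS C hC).2 hC0 hp ?_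
    refine hf _ ?_
    rw [hE]
    exact ⟨C, hC, rfl⟩
  · rw [hE]
    rintro _ ⟨C, hC, rfl⟩ _ ⟨D, hD, rfl⟩
    exact cu_le _ (hr C hC D hD (hS C hC).1 (hS C hC).2 (hS D hD).1 (hS D hD).2)

end Pool.Agent.R229.MT
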