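import Pool.Agent.R229.MT.Bridge
import Pool.Agent.R229.MT.E
import Pool.Agent.R229.MT.Pos
import Pool.Agent.R392.MT.N1
import Pool.Agent.R209.MS.Hom
import Pool.Agent.R229.MS.Piece
import Pool.Agent.R229.MS.Free
import Pool.Agent.R209.MS.Step
import Pool.Agent.R209.MS.Rec
import Pool.Agent.R364.MS.G
import Pool.Agent.R364.MS.M3
import Pool.Agent.R280.MSW.Basic
import Pool.Agent.R280.MSW.Perm3

set_option autoImplicit false

namespace Pool.Agent.R229.MT

universe u

theorem rec_all : Pool.Agent.R229.MS.StmtRec.{u} :=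
  Pool.Agent.R229.MS.stmtRec
      (Pool.Agent.R229.MS.stmtStep Pool.Agent.R364.MS.stmtG) Pool.Agent.R229.MS.stmtUndMono

theorem piece_all : Pool.Agent.R229.MS.StmtPiece.{u} :=
  Pool.Agent.R229.MS.piece Pool.Agent.R280.MSW.stmtTotal Pool.Agent.R280.MSW.stmtPerm
      Pool.Agent.R229.MS.t_StmtFree

theorem hom_all : StmtHom.{u} := stmtHom rec_all piece_all

end Pool.Agent.R229.MT
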