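import Pool.Agent.R229.MT.Main

/-! Bridge to the statement-level definitions of R496/SE. -/

set_option autoImplicit false

noncomputable section

namespace Pool.Agent.R229.MT

open MeasureTheory Filter Topology Set Pool.Agent.R229.MS
open scoped InnerProductSpace ENNReal NNReal Cardinal

universe u v

section

variable {X : Type u} [MeasurableSpace X] {μ : Measure X}

lemma ex_of_expands {c : ℝ≥0} {a : L2 μ →L[ℂ] L2 μ} (h : Expands c a) :
    R496.SE.Ex (c : ℝ≥0∞) a := by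
  intro f
  have hm : MeasurableSet {x | (f : X → ℂ) x ≠ 0} :=
    ((Lp.stronglyMeasurable f).measurable (measurableSet_singleton (0 : ℂ))).compl
  obtain ⟨B, _, hBA, h1⟩ := h _ hm
  refine le_trans ?_ hBA
  have h2 := h1 f (Eventually.of_forall fun x hx => by
    by_contra h3
    exact hx h3)
  refine measure_mono_ae ?_
  filter_upwards [h2] with x hx hx0
  by_contra hB
  exact hx0 (hx hB)

lemma cu_sub (a : L2 μ →L[ℂ] L2 μ) (ha : a ∈ Cu μ) : a ∈ R496.SupportExpansion.CuAlg μ := by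
  rw [R496.SupportExpansion.cu_eq]
  have hsub : ((Bse μ : StarSubalgebra ℂ (L2 μ →L[ℂ] L2 μ)) : Set (L2 μ →L[ℂ] L2 μ)) ⊆
      ((R496.SE.Adm μ : Submodule ℂ (L2 μ →L[ℂ] L2 μ)) : Set (L2 μ →L[ℂ] L2 μ)) := by
    rintro a ⟨c, h1, h2⟩
    exact ⟨c, ex_of_expands h1, ex_of_expands h2⟩
  exact closure_mono hsub ha

lemma exists_fin {I : Type v} {P : I → Set X}
    (hP : R496.SupportExpansion.FinitelyDecomposable μ P) (B : Set X) (hB : MeasurableSet B)
    (h0 : μ B ≠ 0) : ∃ B' ⊆ B, MeasurableSet B' ∧ μ B' ≠ 0 ∧ μ B' ≠ ∞ := by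
  rw [hP.measure_eq B hB] at h0
  obtain ⟨i, hi⟩ : ∃ i, μ (B ∩ P i) ≠ 0 := by
    by_contra hc
    push Not at hc
    exact h0 (ENNReal.tsum_eq_zero.mpr hc)
  exact ⟨B ∩ P i, inter_subset_left, hB.inter (hP.measurable_piece i), hi,
    ne_top_of_le_ne_top (hP.finite_piece i).ne (measure_mono inter_subset_right)⟩

end

/-- Q1 -/
theorem q1all (hM : StmtMaharam.{u}) (hP : StmtPiece.{u}) (X : Type u) (I : Type v)
    [MeasurableSpace X] (μ : Measure X) (P : I → Set X)
    (hD : R496.SupportExpansion.FinitelyDecomposable μ P) (hμ : μ ≠ 0) :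
    ∃ k : R496.SupportExpansion.Op μ, k ∈ R496.SupportExpansion.CuAlg μ ∧
      IsCompactOperator k ∧ k ≠ 0 := by
  have h0 : μ Set.univ ≠ 0 := by
    intro h
    exact hμ (Measure.measure_univ_eq_zero.mp h)
  obtain ⟨B, _, hB, hB0, hBf⟩ := exists_fin hD _ MeasurableSet.univ h0
  exact q1gen hM hP X μ B hB hB0 hBf cu_sub

/-- Q2 -/
theorem q2all (hN1 : StmtN1.{u}) (hN2 : StmtN2.{u}) (hE : StmtE.{u}) (hPos : StmtPos.{u})
    (hHom : StmtHom.{u}) (X : Type u) (I : Type v) [MeasurableSpace X] (μ : Measure X)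
    (P : I → Set X) (hD : R496.SupportExpansion.FinitelyDecomposable μ P) :
    (∀ k : R496.SupportExpansion.Op μ, IsCompactOperator k →
      k ∈ R496.SupportExpansion.CuAlg μ) ↔ (PurelyAtomic μ ∨ Homogeneous μ) :=
  q2gen hN1 hN2 hE hPos hHom X μ (exists_fin hD)

end Pool.Agent.R229.MT
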