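import Pool.Agent.R229.MT.Stm
import Pool.Agent.R229.MS.Final
import Pool.Agent.R364.MS.M3

/-! Assembly of the general case of MP_fe632d_an. -/

set_option autoImplicit false

noncomputable section

namespace Pool.Agent.R229.MT

open MeasureTheory Filter Topology Set Pool.Agent.R229.MS
open scoped InnerProductSpace ENNReal NNReal Cardinal

universe u v

/-- Every nonnull measurable set contains an atom. -/
def PurelyAtomic {X : Type u} [MeasurableSpace X] (μ : Measure X) : Prop :=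
  ∀ B : Set X, MeasurableSet B → μ B ≠ 0 → ∃ C ⊆ B, IsAtomSet μ C

/-- All measurable sets of positive finite measure have the same Maharam type. -/
def Homogeneous {X : Type u} [MeasurableSpace X] (μ : Measure X) : Prop :=
  ∀ C D : Set X, MeasurableSet C → μ C ≠ 0 → μ C ≠ ∞ → MeasurableSet D → μ D ≠ 0 → μ D ≠ ∞ →
    mtype μ C = mtype μ D

section

variable {X : Type u} [MeasurableSpace X] {μ : Measure X}

lemma genBy_mtype_self (C : Set X) : GenBy μ C (mtype μ C) := by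
  have hne : {κ : Cardinal.{u} | GenBy μ C κ}.Nonempty := by
    refine ⟨#({A : Set X | MeasurableSet A} : Set (Set X)), {A : Set X | MeasurableSet A},
      fun A hA => hA, le_rfl, fun D hD => ⟨D, MeasurableSpace.measurableSet_generateFrom hD,
      Filter.EventuallyEq.rfl⟩⟩
  exact csInf_mem hne

lemma mtype_le_of {C : Set X} {κ : Cardinal.{u}} (h : GenBy μ C κ) : mtype μ C ≤ κ :=
  csInf_le' h

lemma atom_of_mtype {C : Set X} (hC : MeasurableSet C) (h0 : μ C ≠ 0) (h1 : μ C ≠ ∞)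
    (h : mtype μ C < ℵ₀) : ∃ C' ⊆ C, IsAtomSet μ C' := by
  obtain ⟨F, hF, hFc, hg⟩ := genBy_mtype_self (μ := μ) C
  exact Pool.Agent.R364.MS.atom_of_finite μ C hC h0 h1 F
    (Cardinal.lt_aleph0_iff_set_finite.1 (hFc.trans_lt h)) ⟨hF, hg⟩

lemma nowhere_of_not_gen {D : Set X} (hD : MeasurableSet D) {κ : Cardinal.{u}}
    (h : ∀ D2 ⊆ D, MeasurableSet D2 → μ D2 ≠ 0 → ¬ GenBy μ D2 κ) (F : Set (Set X))
    (hFm : ∀ A ∈ F, MeasurableSet A) (hFκ : #F ≤ κ) : NowhereGen (μ.restrict D) F := by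
  by_contra hcon
  unfold NowhereGen at hcon
  push Not at hcon
  obtain ⟨B, hB, hB0, hBg⟩ := hcon
  refine h (D ∩ B) inter_subset_left (hD.inter hB) ?_ ⟨F, hFm, hFκ, ?_⟩
  · rw [Measure.restrict_apply hB, inter_comm] at hB0
    exact hB0
  · intro D' hD'
    obtain ⟨E, hE, hDE⟩ := hBg (D' ∩ B) (hD'.inter hB) inter_subset_right
    refine ⟨E, hE, ?_⟩
    have hae := Pool.Agent.R364.MS.ae_restrict_diff hD hDE
    have : ∀ᵐ x ∂(μ.restrict (D ∩ B)), (x ∈ D' ↔ x ∈ E) := by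
      rw [ae_restrict_iff' (hD.inter hB)]
      filter_upwards [hae] with x hx hmem
      have := hx hmem.1
      simp only [mem_inter_iff, hmem.2, and_true] at this
      exact this
    filter_upwards [this] with x hx
    exact propext hx

/-- the indicator vector -/
abbrev ind {C : Set X} (hC : MeasurableSet C) (hf : μ C ≠ ∞) : L2 μ :=
  indicatorConstLp 2 hC hf (1 : ℂ)

lemma supp_ind {C : Set X} (hC : MeasurableSet C) (hf : μ C ≠ ∞) : Supp (ind hC hf) C := by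
  filter_upwards [indicatorConstLp_coeFn (p := 2) (hs := hC) (hμs := hf) (c := (1 : ℂ))]
    with x h1 hx
  rw [h1, indicator_of_notMem hx]

lemma inner_ind {C D : Set X} (hC : MeasurableSet C) (hf : μ C ≠ ∞) (hD : MeasurableSet D)
    (hg : μ D ≠ ∞) : ⟪ind hC hf, ind hD hg⟫_ℂ = ((μ.real (C ∩ D) : ℝ) : ℂ) := by
  rw [L2.inner_indicatorConstLp_one]
  have h1 : ∫ x in C, (ind hD hg : X → ℂ) x ∂μ = ∫ x in C, D.indicator (fun _ => (1 : ℂ)) x ∂μ := by
    apply integral_congr_ae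
    exact ae_restrict_of_ae (indicatorConstLp_coeFn (p := 2) (hs := hD) (hμs := hg) (c := (1 : ℂ)))
  rw [h1, setIntegral_indicator hD]
  simp

lemma ind_zero {C : Set X} (hC : MeasurableSet C) (hf : μ C ≠ ∞) (h0 : μ C = 0) :
    (ind hC hf : L2 μ) = 0 := by
  have : ‖(ind hC hf : L2 μ)‖ ^ 2 = 0 := by
    have h1 := inner_ind hC hf hC hf
    rw [inter_self] at h1
    have h2 : μ.real C = 0 := by simp [Measure.real, h0]
    rw [h2, inner_self_eq_norm_sq_to_K] at h1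
    have h3 := congrArg Complex.re h1
    have h4 : (((‖(ind hC hf : L2 μ)‖ : ℝ) : ℂ) ^ 2).re = ‖(ind hC hf : L2 μ)‖ ^ 2 := by
      rw [← Complex.ofReal_pow, Complex.ofReal_re]
    rw [← h4]
    exact h3
  exact norm_eq_zero.1 (pow_eq_zero_iff (two_ne_zero) |>.1 this)

/-- the corner vanishes for all operators of the closed algebra -/
lemma corner_closed {C D : Set X}
    (h : ∀ (a : L2 μ →L[ℂ] L2 μ) (c : ℝ≥0),
      R496.SE.Ex (c : ℝ≥0∞) (ContinuousLinearMap.adjoint a) →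
      ∀ f g : L2 μ, Supp f C → Supp g D → ⟪g, a f⟫_ℂ = 0)
    (a : R496.SupportExpansion.Op μ) (ha : a ∈ R496.SupportExpansion.CuAlg μ) (f g : L2 μ)
    (hf : Supp f C) (hg : Supp g D) : ⟪g, (show L2 μ →L[ℂ] L2 μ from a) f⟫_ℂ = 0 := by
  rw [R496.SupportExpansion.cu_eq] at ha
  have hcl : IsClosed {a : L2 μ →L[ℂ] L2 μ | ⟪g, a f⟫_ℂ = 0} := by
    refine isClosed_eq ?_ continuous_const
    exact (continuous_const.inner ((ContinuousLinearMap.apply ℂ (L2 μ) f).continuous))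
  have hsub : ((R496.SE.Adm μ : Submodule ℂ (L2 μ →L[ℂ] L2 μ)) : Set (L2 μ →L[ℂ] L2 μ)) ⊆
      {a : L2 μ →L[ℂ] L2 μ | ⟪g, a f⟫_ℂ = 0} := by
    rintro a ⟨c, _, h2⟩
    exact h a c h2 f g hf hg
  exact closure_minimal hsub hcl ha

lemma corner_contra {C D : Set X} (hC : MeasurableSet C) (hCf : μ C ≠ ∞) (hC0 : μ C ≠ 0)
    (hD : MeasurableSet D) (hDf : μ D ≠ ∞) (hD0 : μ D ≠ 0)
    (h : ∀ (a : L2 μ →L[ℂ] L2 μ) (c : ℝ≥0),
      R496.SE.Ex (c : ℝ≥0∞) (ContinuousLinearMap.adjoint a) →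
      ∀ f g : L2 μ, Supp f C → Supp g D → ⟪g, a f⟫_ℂ = 0)
    (hall : ∀ k : R496.SupportExpansion.Op μ, IsCompactOperator k →
      k ∈ R496.SupportExpansion.CuAlg μ) : False := by
  have h1 := hall (R496.SE.r1 (H := L2 μ) (ind hD hDf) (ind hC hCf))
    (R496.SE.r1_compact (H := L2 μ) _ _)
  have h2 := corner_closed h _ h1 (ind hC hCf) (ind hD hDf) (supp_ind hC hCf) (supp_ind hD hDf)
  have h3 : (R496.SE.r1 (H := L2 μ) (ind hD hDf) (ind hC hCf)) (ind hC hCf) =
      ⟪ind hC hCf, ind hC hCf⟫_ℂ • ind hD hDf := rfl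
  have h4 : ⟪ind hD hDf, (⟪ind hC hCf, ind hC hCf⟫_ℂ • ind hD hDf : L2 μ)⟫_ℂ = 0 := h2
  rw [inner_smul_right, inner_ind, inner_ind, inter_self, inter_self, mul_eq_zero] at h4
  rcases h4 with h4 | h4
  · exact (ENNReal.toReal_pos hC0 hCf).ne' (Complex.ofReal_eq_zero.1 h4)
  · exact (ENNReal.toReal_pos hD0 hDf).ne' (Complex.ofReal_eq_zero.1 h4)

lemma atoms_mem {C D : Set X} (hC : IsAtomSet μ C) (hD : IsAtomSet μ D) (hCm : MeasurableSet C)
    (hCf : μ C ≠ ∞) (hDm : MeasurableSet D) (hDf : μ D ≠ ∞) :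
    rk (ind hCm hCf) (ind hDm hDf) ∈ Cu μ := by
  have key : ∀ {C D : Set X} (_ : IsAtomSet μ C) (hD : IsAtomSet μ D) (hCm : MeasurableSet C)
      (hCf : μ C ≠ ∞) (hDm : MeasurableSet D) (hDf : μ D ≠ ∞),
      Expands ((μ C / μ D).toNNReal) (rk (ind hCm hCf) (ind hDm hDf)) := by
    intro C D _ hD hCm hCf hDm hDf A hA
    rcases hD.2.2.2 (D ∩ A) (hDm.inter hA) inter_subset_left with h0 | h0
    · refine ⟨∅, MeasurableSet.empty, by simp, fun ξ hξ => ?_⟩
      have h1 : ⟪ind hDm hDf, ξ⟫_ℂ = 0 := by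
        rw [L2.inner_indicatorConstLp_one]
        apply integral_eq_zero_of_ae
        have h2 : ∀ᵐ x ∂μ, x ∉ D ∩ A := by
          rw [ae_iff]
          simpa using h0
        rw [Filter.EventuallyEq, ae_restrict_iff' hDm]
        filter_upwards [hξ, h2] with x h3 h4 hxC
        exact h3 fun hxA => h4 ⟨hxC, hxA⟩
      rw [rk_apply, h1, zero_smul]
      exact Supp.zero _
    · refine ⟨C, hCm, ?_, fun ξ _ => ?_⟩
      · have h1 : μ D ≤ μ (D ∩ A) + μ (D \ (D ∩ A)) := by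
          have := measure_union_le (μ := μ) (D ∩ A) (D \ (D ∩ A))
          rwa [union_sdiff_cancel inter_subset_left] at this
        rw [h0, add_zero] at h1
        have h2 : μ D ≤ μ A := h1.trans (measure_mono inter_subset_right)
        have h3 : ((μ C / μ D).toNNReal : ℝ≥0∞) = μ C / μ D :=
          ENNReal.coe_toNNReal (ENNReal.div_ne_top hCf hD.2.1)
        rw [h3]
        calc μ C = μ C / μ D * μ D := (ENNReal.div_mul_cancel hD.2.1 hDf).symm
          _ ≤ μ C / μ D * μ A := by gcongr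
      · rw [rk_apply]
        exact (supp_ind hCm hCf).smul _
  apply (Bse μ).le_topologicalClosure
  refine ⟨(μ C / μ D).toNNReal + (μ D / μ C).toNNReal, ?_, ?_⟩
  · exact (key hC hD hCm hCf hDm hDf).mono (by simp)
  · rw [rk_adjoint]
    exact (key hD hC hDm hDf hCm hCf).mono (by simp)

lemma pairs_mem (h : ∀ (C : Set X) (hC : MeasurableSet C) (hf : μ C ≠ ∞),
    rk (ind hC hf) (ind hC hf) ∈ Cu μ) {C D : Set X} (hC : MeasurableSet C)
    (hCf : μ C ≠ ∞) (hD : MeasurableSet D) (hDf : μ D ≠ ∞) :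
    rk (ind hC hCf) (ind hD hDf) ∈ Cu μ := by
  by_cases hC0 : μ C = 0
  · rw [ind_zero hC hCf hC0]
    have : rk (0 : L2 μ) (ind hD hDf) = 0 := by
      ext1 z
      rw [rk_apply, smul_zero]
      rfl
    rw [this]
    exact (Cu μ).zero_mem
  by_cases hD0 : μ D = 0
  · rw [ind_zero hD hDf hD0]
    have : rk (ind hC hCf) (0 : L2 μ) = 0 := by
      ext1 z
      rw [rk_apply, inner_zero_left, zero_smul]
      rfl
    rw [this]
    exact (Cu μ).zero_mem
  have hEf : μ (C ∪ D) ≠ ∞ := ((measure_union_le C D).trans_lt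
    (ENNReal.add_lt_top.2 ⟨lt_top_iff_ne_top.2 hCf, lt_top_iff_ne_top.2 hDf⟩)).ne
  have h1 := (Cu μ).mul_mem ((Cu μ).mul_mem (h C hC hCf) (h (C ∪ D) (hC.union hD) hEf))
    (h D hD hDf)
  have hc : ((μ.real C : ℝ) : ℂ) ≠ 0 := by
    rw [Ne, Complex.ofReal_eq_zero]
    exact (ENNReal.toReal_pos hC0 hCf).ne'
  have hd : ((μ.real D : ℝ) : ℂ) ≠ 0 := by
    rw [Ne, Complex.ofReal_eq_zero]
    exact (ENNReal.toReal_pos hD0 hDf).ne'
  have h2 : rk (ind hC hCf) (ind hD hDf) =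
      ((((μ.real C : ℝ) : ℂ) * ((μ.real D : ℝ) : ℂ))⁻¹) •
        (rk (ind hC hCf) (ind hC hCf) * rk (ind (hC.union hD) hEf) (ind (hC.union hD) hEf) *
          rk (ind hD hDf) (ind hD hDf)) := by
    ext1 z
    rw [_root_.smul_apply]
    have e1 : (rk (ind hC hCf) (ind hC hCf) * rk (ind (hC.union hD) hEf) (ind (hC.union hD) hEf) *
          rk (ind hD hDf) (ind hD hDf)) z = rk (ind hC hCf) (ind hC hCf)
          (rk (ind (hC.union hD) hEf) (ind (hC.union hD) hEf) (rk (ind hD hDf) (ind hD hDf) z)) :=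
      rfl
    have hc1 : C ∩ (C ∪ D) = C := inter_eq_left.2 subset_union_left
    have hd1 : (C ∪ D) ∩ D = D := inter_eq_right.2 subset_union_right
    rw [e1, rk_apply, rk_apply, rk_apply, rk_apply, inner_smul_right, inner_smul_right, inner_ind,
      inner_ind, hc1, hd1]
    rw [smul_smul]
    congr 1
    field_simp
  rw [h2]
  exact (Cu μ).smul_mem h1 _

end

/-- Q1 in full generality. -/
theorem q1gen (hM : StmtMaharam.{u}) (hP : StmtPiece.{u}) (X : Type u) [MeasurableSpace X]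
    (μ : Measure X) (B : Set X) (hB : MeasurableSet B) (h0 : μ B ≠ 0) (hf : μ B ≠ ∞)
    (hsub : ∀ a : L2 μ →L[ℂ] L2 μ, a ∈ Cu μ → a ∈ R496.SupportExpansion.CuAlg μ) :
    ∃ k : R496.SupportExpansion.Op μ, k ∈ R496.SupportExpansion.CuAlg μ ∧
      IsCompactOperator k ∧ k ≠ 0 := by
  obtain ⟨C, hCB, hC⟩ := hM X μ B hB h0 hf
  have hCall : MeasurableSet C ∧ μ C ≠ 0 := by
    rcases hC with h | ⟨Ξ, A, h⟩
    · exact ⟨h.1, h.2.1⟩
    · exact ⟨h.mC, h.pos⟩
  have hm := hCall.1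
  have hf : μ C ≠ ∞ := ne_top_of_le_ne_top hf (measure_mono hCB)
  have hmem : rk (ind hm hf) (ind hm hf) ∈ Cu μ := by
    rcases hC with h | ⟨Ξ, A, h⟩
    · exact (Bse μ).le_topologicalClosure (atom_mem h hm hf)
    · exact hP X μ C hm hf Ξ A h
  refine ⟨R496.SE.r1 (H := L2 μ) (ind hm hf) (ind hm hf), hsub _ hmem,
    R496.SE.r1_compact (H := L2 μ) _ _, ?_⟩
  exact R496.SupportExpansion.r1_self_ne (H := L2 μ) (R496.SupportExpansion.ind_ne hm hf hCall.2)

theorem q2gen (hN1 : StmtN1.{u}) (hN2 : StmtN2.{u}) (hE : StmtE.{u}) (hPos : StmtPos.{u})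
    (hHom : StmtHom.{u}) (X : Type u) [MeasurableSpace X] (μ : Measure X)
    (hsf : ∀ B : Set X, MeasurableSet B → μ B ≠ 0 → ∃ B' ⊆ B, MeasurableSet B' ∧ μ B' ≠ 0 ∧
      μ B' ≠ ∞) :
    (∀ k : R496.SupportExpansion.Op μ, IsCompactOperator k →
      k ∈ R496.SupportExpansion.CuAlg μ) ↔ (PurelyAtomic μ ∨ Homogeneous μ) := by
  constructor
  · intro hall
    by_contra hcon
    push Not at hcon
    obtain ⟨hna, hnh⟩ := hcon
    unfold PurelyAtomic at hna
    push Not at hna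
    obtain ⟨B0, hB0m, hB00, hB0a⟩ := hna
    obtain ⟨B, hBB0, hB, hB0, hBf⟩ := hsf B0 hB0m hB00
    have hnoatom : ∀ b : Set X, ¬ IsAtomSet μ b := by
      intro b hb
      exact corner_contra hb.1 hb.2.2.1 hb.2.1 hB hBf hB0
        (fun a c hc f g hf hg => hN1 X μ b B hb hB hBf
          (fun C hC hCa => hB0a C (hC.trans hBB0) hCa) a c hc f g hf hg) hall
    have main : ∀ C D : Set X, MeasurableSet C → μ C ≠ 0 → μ C ≠ ∞ → MeasurableSet D →
        μ D ≠ 0 → μ D ≠ ∞ → ¬ mtype μ C < mtype μ D := by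
      intro C D hC hC0 hCf hD hD0 hDf hlt
      have hκ : ℵ₀ ≤ mtype μ C := by
        by_contra h
        push Not at h
        obtain ⟨C', _, hC'⟩ := atom_of_mtype hC hC0 hCf h
        exact hnoatom C' hC'
      have hex : ∃ D1 ⊆ D, MeasurableSet D1 ∧ μ D1 ≠ 0 ∧
          ∀ D2 ⊆ D1, MeasurableSet D2 → μ D2 ≠ 0 → ¬ GenBy μ D2 (mtype μ C) := by
        by_contra hno
        push Not at hno
        have := hE X μ D hD hDf (mtype μ C) hκ fun D1 h1 h2 h3 => by
          obtain ⟨D2, h4, h5, h6, h7⟩ := hno D1 h1 h2 h3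
          exact ⟨D2, h4, h5, h6, h7⟩
        exact absurd (mtype_le_of this) (not_le.2 hlt)
      obtain ⟨D1, hD1D, hD1, hD10, hD1g⟩ := hex
      have hD1f : μ D1 ≠ ∞ := ne_top_of_le_ne_top hDf (measure_mono hD1D)
      exact corner_contra hC hCf hC0 hD1 hD1f hD10
        (fun a c hc f g hf hg => hN2 X μ C D1 hC hCf hD1 hD1f (mtype μ C) hκ (genBy_mtype_self C)
          (fun F hF hFκ => nowhere_of_not_gen hD1 hD1g F hF hFκ) a c hc f g hf hg) hall
    apply hnh
    intro C D hC hC0 hCf hD hD0 hDf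
    exact le_antisymm (not_lt.1 (main D C hD hD0 hDf hC hC0 hCf))
      (not_lt.1 (main C D hC hC0 hCf hD hD0 hDf))
  · intro h
    have hatomic : PurelyAtomic μ → ∀ k : R496.SupportExpansion.Op μ, IsCompactOperator k →
        k ∈ R496.SupportExpansion.CuAlg μ := by
      intro hpa
      refine hPos X μ {C | IsAtomSet μ C} (fun C hC => ⟨hC.1, hC.2.2.1⟩) (fun B hB h0 _ => ?_)
        (fun C hC D hD hCm hCf hDm hDf => atoms_mem hC hD hCm hCf hDm hDf)
      obtain ⟨C, hCB, hC⟩ := hpa B hB h0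
      exact ⟨C, hCB, hC, hC.2.1⟩
    rcases h with h | h
    · exact hatomic h
    · by_cases hex : ∃ C0 : Set X, MeasurableSet C0 ∧ μ C0 ≠ 0 ∧ μ C0 ≠ ∞
      · obtain ⟨C0, hC0, hC00, hC0f⟩ := hex
        by_cases hκ : mtype μ C0 < ℵ₀
        · apply hatomic
          intro B hB hB0
          obtain ⟨B', hB'B, hB', hB'0, hB'f⟩ := hsf B hB hB0
          have h1 : mtype μ B' < ℵ₀ := by
            rw [h B' C0 hB' hB'0 hB'f hC0 hC00 hC0f]
            exact hκ
          obtain ⟨C, hCB, hC⟩ := atom_of_mtype hB' hB'0 hB'f h1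
          exact ⟨C, hCB.trans hB'B, hC⟩
        · push Not at hκ
          have h2 := hHom X μ (mtype μ C0) hκ
            (fun C hC h0 hf => h C C0 hC h0 hf hC0 hC00 hC0f)
          refine hPos X μ {C | MeasurableSet C ∧ μ C ≠ ∞} (fun C hC => hC)
            (fun B hB h0 hf => ⟨B, subset_rfl, ⟨hB, hf⟩, h0⟩)
            (fun C _ D _ hCm hCf hDm hDf => pairs_mem h2 hCm hCf hDm hDf)
      · push Not at hex
        apply hatomic
        intro B hB hB0
        obtain ⟨B', _, hB', hB'0, hB'f⟩ := hsf B hB hB0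
        exact absurd (hex B' hB' hB'0) hB'f

end Pool.Agent.R229.MT
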