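import Pool.Agent.R229.MS.Stm
import Pool.Agent.R496.SE.Def

/-! Statements for the general case of MP_fe632d_an: `C*_u(X, V_μ)` contains all compact operators
iff `μ` is purely atomic or Maharam homogeneous. -/

set_option autoImplicit false

noncomputable section

namespace Pool.Agent.R229.MT

open MeasureTheory Filter Topology Set Pool.Agent.R229.MS
open scoped InnerProductSpace ENNReal NNReal Cardinal

universe u

/-- The measure algebra of `C` is generated by at most `κ` measurable sets. -/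
def GenBy {X : Type u} [MeasurableSpace X] (μ : Measure X) (C : Set X) (κ : Cardinal.{u}) : Prop :=
  ∃ F : Set (Set X), (∀ A ∈ F, MeasurableSet A) ∧ #F ≤ κ ∧ ∀ D : Set X, MeasurableSet D →
    ∃ E : Set X, MeasurableSet[MeasurableSpace.generateFrom F] E ∧ D =ᵐ[μ.restrict C] E

/-- The Maharam type of the measure algebra of `C`. -/
def mtype {X : Type u} [MeasurableSpace X] (μ : Measure X) (C : Set X) : Cardinal.{u} :=
  sInf {κ | GenBy μ C κ}

/-- MT-N1: no operator with bounded support expansion between an atom and an atomless set. -/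
def StmtN1 : Prop := ∀ (X : Type u) [MeasurableSpace X] (μ : Measure X) (b D : Set X),
  IsAtomSet μ b → MeasurableSet D → μ D ≠ ∞ → (∀ C ⊆ D, ¬ IsAtomSet μ C) →
  ∀ (a : L2 μ →L[ℂ] L2 μ) (c : ℝ≥0), R496.SE.Ex (c : ℝ≥0∞) (ContinuousLinearMap.adjoint a) →
  ∀ f g : L2 μ, Supp f b → Supp g D → ⟪g, a f⟫_ℂ = 0

/-- MT-N2: no operator with bounded support expansion between a set of type at most `κ` and a set
all of whose nonnull subsets have type greater than `κ`. -/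
def StmtN2 : Prop := ∀ (X : Type u) [MeasurableSpace X] (μ : Measure X) (C D : Set X),
  MeasurableSet C → μ C ≠ ∞ → MeasurableSet D → μ D ≠ ∞ → ∀ κ : Cardinal.{u}, ℵ₀ ≤ κ →
  GenBy μ C κ →
  (∀ F : Set (Set X), (∀ A ∈ F, MeasurableSet A) → #F ≤ κ → NowhereGen (μ.restrict D) F) →
  ∀ (a : L2 μ →L[ℂ] L2 μ) (c : ℝ≥0), R496.SE.Ex (c : ℝ≥0∞) (ContinuousLinearMap.adjoint a) →
  ∀ f g : L2 μ, Supp f C → Supp g D → ⟪g, a f⟫_ℂ = 0

/-- MT-E: exhaustion. -/
def StmtE : Prop := ∀ (X : Type u) [MeasurableSpace X] (μ : Measure X) (D : Set X),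
  MeasurableSet D → μ D ≠ ∞ → ∀ κ : Cardinal.{u}, ℵ₀ ≤ κ →
  (∀ D1 ⊆ D, MeasurableSet D1 → μ D1 ≠ 0 →
    ∃ D2 ⊆ D1, MeasurableSet D2 ∧ μ D2 ≠ 0 ∧ GenBy μ D2 κ) → GenBy μ D κ

/-- MT-POS: if all `1_C ⊗ 1_D` are in the closed algebra, so are all compact operators, for two
situations: `C`, `D` all sets of finite measure, or `C`, `D` all atoms of a purely atomic measure. -/
def StmtPos : Prop := ∀ (X : Type u) [MeasurableSpace X] (μ : Measure X) (S : Set (Set X)),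
  (∀ C ∈ S, MeasurableSet C ∧ μ C ≠ ∞) →
  (∀ B : Set X, MeasurableSet B → μ B ≠ 0 → μ B ≠ ∞ → ∃ C ⊆ B, C ∈ S ∧ μ C ≠ 0) →
  (∀ C ∈ S, ∀ D ∈ S, ∀ (hC : MeasurableSet C) (hCf : μ C ≠ ∞) (hD : MeasurableSet D)
    (hDf : μ D ≠ ∞),
    rk (indicatorConstLp 2 hC hCf (1 : ℂ)) (indicatorConstLp 2 hD hDf (1 : ℂ)) ∈ Cu μ) →
  ∀ k : R496.SupportExpansion.Op μ, IsCompactOperator k → k ∈ R496.SupportExpansion.CuAlg μ

/-- MT-BP: the projection onto `1_C` for every set `C` of a Maharam homogeneous measure. -/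
def StmtHom : Prop := ∀ (X : Type u) [MeasurableSpace X] (μ : Measure X) (κ : Cardinal.{u}),
  ℵ₀ ≤ κ → (∀ C : Set X, MeasurableSet C → μ C ≠ 0 → μ C ≠ ∞ → mtype μ C = κ) →
  ∀ (C : Set X) (hC : MeasurableSet C) (hf : μ C ≠ ∞),
    rk (indicatorConstLp 2 hC hf (1 : ℂ)) (indicatorConstLp 2 hC hf (1 : ℂ)) ∈ Cu μ

end Pool.Agent.R229.MT
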